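import Pool.Agent.X126.TreeC

set_option autoImplicit false

namespace Pool.Agent.Results.MP_256cd6_an.NotDense

open Pool.Agent.X126.Tree

/-- For every `d ≥ 2`, neither `ℋ^(d)` nor `ℋ^(d)_irr` is dense in `I_d = ((d-1)/d log 2, (d-1) log 2)`. More
precisely some nonempty interval `(a, (d²-1)/d² log 2)` contained in `I_d` contains no entropy of a hom Markov
tree-shift. -/
theorem result : ∀ d : ℕ, 2 ≤ d →
    ¬ DenseIn (H d) (((d : ℝ) - 1) / d * Real.log 2) (((d : ℝ) - 1) * Real.log 2) ∧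
    ¬ DenseIn (Hirr d) (((d : ℝ) - 1) / d * Real.log 2) (((d : ℝ) - 1) * Real.log 2) ∧
    ∃ a : ℝ, ((d : ℝ) - 1) / d * Real.log 2 ≤ a ∧ a < ((d : ℝ) ^ 2 - 1) / (d : ℝ) ^ 2 * Real.log 2 ∧
      ∀ h ∈ H d, h ∉ Set.Ioo a (((d : ℝ) ^ 2 - 1) / (d : ℝ) ^ 2 * Real.log 2) := by
  intro d hd
  have hd2 : (2 : ℝ) ≤ d := by exact_mod_cast hd
  have hd0 : (0 : ℝ) < d := by linarith
  have hd1 : (0 : ℝ) < (d : ℝ) - 1 := by linarith
  obtain ⟨a, b, h1, h2, h3, h4⟩ := final hd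
  have hsub : Hirr d ⊆ H d := by
    rintro h ⟨k, M, hk, -, hne, he⟩
    exact ⟨k, M, hk, hne, he⟩
  refine ⟨?_, ?_, ?_⟩
  · intro hden
    obtain ⟨h, hh, hI⟩ := hden a b h1 h2 h3
    exact h4 h hh hI
  · intro hden
    obtain ⟨h, hh, hI⟩ := hden a b h1 h2 h3
    exact h4 h (hsub hh) hI
  · obtain ⟨A, hA1, hA2, hA⟩ := gap hd
    have hq : (0 : ℝ) < ((d : ℝ) - 1) / d := by positivity
    have e : ((d : ℝ) ^ 2 - 1) / (d : ℝ) ^ 2 * Real.log 2 = ((d : ℝ) - 1) / d * ((1 + 1 / d) * Real.log 2) := by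
      field_simp
      ring
    rw [e]
    refine ⟨((d : ℝ) - 1) / d * A, mul_le_mul_of_nonneg_left hA1 hq.le, mul_lt_mul_of_pos_left hA2 hq, ?_⟩
    rintro h ⟨k, M, -, hne, hent⟩ ⟨h5, h6⟩
    have hl2 : 0 < Real.log 2 := Real.log_pos (by norm_num)
    rcases dichotomy hd hne (by linarith) hA hent with h3 | h3
    · linarith
    · linarith

end Pool.Agent.Results.MP_256cd6_an.NotDense
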